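import Pool.Agent.Lib.MP_9fb898_nt.Final

set_option autoImplicit false

namespace Pool.Agent.Results.MP_9fb898_nt.Irreducible

open Pool.Agent.Lib.MP_9fb898_nt Polynomial Finset

/-- The Pascalian polynomials of even index `n ≥ 2` are irreducible over the rationals. -/
theorem result (n : ℕ) (hn : Even n) (h2 : 2 ≤ n) :
    Irreducible (∑ k ∈ Finset.range (n + 1),
      C ((n.choose ((n - k) / 2) : ℕ) : ℚ) * (X : ℚ[X]) ^ (n - k)) := by
  obtain ⟨m, rfl⟩ := even_iff_exists_two_mul.1 hn
  have h := irreducible_rat (m := m) (by omega)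
  rw [Pool.Agent.Lib.MP_9fb898_nt.val, ← sum_range_reflect] at h
  simpa only [C_eq_natCast, Nat.add_sub_cancel] using h

end Pool.Agent.Results.MP_9fb898_nt.Irreducible
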